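import Mathlib

set_option autoImplicit false

/-!
# Moebius images as sets of topological multiplicative recurrence

For `a ≥ 1` and integers `b ≠ d` put `S_{a,b,d} = {(an+b)/(an+d) : n ≥ 1, an+b > 0, an+d > 0}`.
We show that `S_{a,b,d}` is a set of topological multiplicative recurrence if and only if every
prime power dividing `a` divides `b` or divides `d`.  In particular the set
`{(6n+3)/(6n+2) : n ≥ 1}` is a set of topological multiplicative recurrence although `6 ∤ 3` and
`6 ∤ 2`, so the equivalence asked about in Q1 fails.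
-/

namespace Pool.Agent.Results.MP_369d67_an.Classification

/-- A topological `(ℚ^{>0}, ×)`-system on the space `X`: continuous self-maps `T r` with
`T (r * s) = T r ∘ T s`. -/
structure IsSystem {X : Type} [TopologicalSpace X] (T : {q : ℚ // 0 < q} → X → X) : Prop where
  cont : ∀ r, Continuous (T r)
  mul : ∀ r s, T (r * s) = T r ∘ T s

/-- Minimality: the orbit of every point is dense. -/
def IsMinimalSystem {X : Type} [TopologicalSpace X] (T : {q : ℚ // 0 < q} → X → X) : Prop :=
  ∀ x : X, Dense (Set.range fun r => T r x)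

/-- `R` is a set of topological multiplicative recurrence: for every minimal system on a compact
metrizable space and every nonempty open set `U`, some `r ∈ R` has `U ∩ T_r⁻¹ U ≠ ∅`. -/
def IsSetOfRecurrence (R : Set {q : ℚ // 0 < q}) : Prop :=
  ∀ (X : Type) [TopologicalSpace X] [CompactSpace X] [TopologicalSpace.MetrizableSpace X]
    (T : {q : ℚ // 0 < q} → X → X), IsSystem T → IsMinimalSystem T →
    ∀ U : Set X, IsOpen U → U.Nonempty → ∃ r ∈ R, (U ∩ T r ⁻¹' U).Nonempty

/-- `S_{a,b,d} = {(an+b)/(an+d) : n ≥ 1, an+b > 0, an+d > 0}` as a set of positive rationals. -/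
def S (a : ℕ) (b d : ℤ) : Set {q : ℚ // 0 < q} :=
  {q | ∃ n : ℕ, 1 ≤ n ∧ 0 < (a : ℤ) * n + b ∧ 0 < (a : ℤ) * n + d ∧
    (q : ℚ) = ((a : ℚ) * n + b) / ((a : ℚ) * n + d)}

/-- Splitting off the part of `Q` composed of primes dividing `c`. -/
lemma split_part (c : ℕ) : ∀ Q : ℕ, 0 < Q →
    ∃ Q1 Q2 k : ℕ, Q = Q1 * Q2 ∧ Nat.Coprime Q1 c ∧ Q2 ∣ c ^ k := by
  intro Q
  induction Q using Nat.strong_induction_on with
  | _ Q ih =>
    intro hQ
    by_cases hg : Nat.Coprime Q c
    · exact ⟨Q, 1, 0, by simp, hg, by simp⟩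
    · set g := Nat.gcd Q c with hgdef
      have hg1 : g ≠ 1 := hg
      have hgpos : 0 < g := Nat.gcd_pos_of_pos_left _ hQ
      have hg2 : 2 ≤ g := by omega
      obtain ⟨q, hq⟩ : g ∣ Q := Nat.gcd_dvd_left _ _
      have hqpos : 0 < q := by
        rcases Nat.eq_zero_or_pos q with h | h
        · subst h; omega
        · exact h
      have hqlt : q < Q := by nlinarith
      obtain ⟨Q1, Q2, k, h1, h2, h3⟩ := ih q hqlt hqpos
      refine ⟨Q1, Q2 * g, k + 1, ?_, h2, ?_⟩
      · rw [hq, h1]; ring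
      · rw [pow_succ]
        exact Nat.mul_dvd_mul h3 (Nat.gcd_dvd_right _ _)

/-- The clique property. -/
def Clique (a1 a2 K : ℤ) (r : ℕ) (A : ℕ → ℤ) : Prop :=
  (∀ i, i ≤ r → 0 < A i) ∧
  ∀ i j, i < j → j ≤ r → A i < A j ∧ a1 * (A j - A i) ∣ A j ∧ a2 * (A j - A i) ∣ A i ∧
    K * (A j - A i) ≤ A i

lemma clique_exists (a1 a2 : ℕ) (h1 : 0 < a1) (h2 : 0 < a2) (hc : Nat.Coprime a1 a2)
    (K : ℤ) (hK : 0 < K) : ∀ r : ℕ, ∃ A : ℕ → ℤ, Clique a1 a2 K r A := by
  intro r
  induction r with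
  | zero =>
    refine ⟨fun _ => 1, fun _ _ => by norm_num, ?_⟩
    intro i j hij hj
    omega
  | succ r ih =>
    obtain ⟨A, hApos, hA⟩ := ih
    -- scale by a2
    set B : ℕ → ℤ := fun i => a2 * A i with hB
    have ha2 : (0 : ℤ) < a2 := by exact_mod_cast h2
    have ha1 : (0 : ℤ) < a1 := by exact_mod_cast h1
    have hBpos : ∀ i, i ≤ r → 0 < B i := fun i hi => mul_pos ha2 (hApos i hi)
    have hBdvd : ∀ i, (a2 : ℤ) ∣ B i := fun i => dvd_mul_right _ _
    have hB1 : ∀ i j, i < j → j ≤ r → B i < B j ∧ a1 * (B j - B i) ∣ B j ∧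
        a2 * (B j - B i) ∣ B i := by
      intro i j hij hj
      obtain ⟨h3, h4, h5, _⟩ := hA i j hij hj
      refine ⟨mul_lt_mul_of_pos_left h3 ha2, ?_, ?_⟩
      · have : a1 * (B j - B i) = a2 * (a1 * (A j - A i)) := by simp only [hB]; ring
        rw [this]; exact mul_dvd_mul_left _ h4
      · have : a2 * (B j - B i) = a2 * (a2 * (A j - A i)) := by simp only [hB]; ring
        rw [this]; exact mul_dvd_mul_left _ h5
    -- the modulus Q
    set P : ℤ := ∏ i ∈ Finset.range (r + 1), ∏ j ∈ Finset.range (r + 1),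
      (if i < j then B j - B i else 1) with hP
    have hPpos : 0 < P := by
      apply Finset.prod_pos
      intro i hi
      apply Finset.prod_pos
      intro j hj
      split_ifs with hij
      · have := (hB1 i j hij (by have := Finset.mem_range.mp hj; omega)).1
        linarith
      · norm_num
    have hPdvd : ∀ i j, i < j → j ≤ r → (B j - B i) ∣ P := by
      intro i j hij hj
      have e1 : (if i < j then B j - B i else 1) = B j - B i := if_pos hij
      have d1 : (if i < j then B j - B i else 1) ∣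
          ∏ j ∈ Finset.range (r + 1), (if i < j then B j - B i else 1) :=
        Finset.dvd_prod_of_mem (fun j => if i < j then B j - B i else 1)
          (Finset.mem_range.mpr (by omega))
      have d2 : (∏ j ∈ Finset.range (r + 1), (if i < j then B j - B i else 1)) ∣ P :=
        Finset.dvd_prod_of_mem
          (fun i => ∏ j ∈ Finset.range (r + 1), (if i < j then B j - B i else 1))
          (Finset.mem_range.mpr (by omega))
      rw [e1] at d1
      exact d1.trans d2
    set Q : ℤ := a1 * a2 * P with hQ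
    have hQpos : 0 < Q := by positivity
    have hQnat : 0 < Q.natAbs := Int.natAbs_pos.mpr hQpos.ne'
    obtain ⟨Q1, Q2, k, hQ12, hQ1c, hQ2d⟩ := split_part a2 Q.natAbs hQnat
    have hQeq : Q = Q1 * Q2 := by
      have : (Q.natAbs : ℤ) = Q := Int.natAbs_of_nonneg hQpos.le
      rw [← this, hQ12]; push_cast; ring
    have hQ1pos : 0 < Q1 := by
      rcases Nat.eq_zero_or_pos Q1 with h | h
      · rw [h] at hQ12; simp at hQ12; omega
      · exact h
    have hQ1c' : IsCoprime (Q1 : ℤ) (a2 : ℤ) := Nat.isCoprime_iff_coprime.mpr hQ1c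
    obtain ⟨u0, v0, huv⟩ := hQ1c'
    -- u0 * Q1 + v0 * a2 = 1
    -- choose y
    obtain ⟨T, hT⟩ : ∃ T : ℤ, 0 < T ∧ ∀ i, i ≤ r → B i < T := by
      refine ⟨1 + ∑ i ∈ Finset.range (r + 1), B i, ?_, ?_⟩
      · have : 0 ≤ ∑ i ∈ Finset.range (r + 1), B i :=
          Finset.sum_nonneg fun i hi => (hBpos i (by have := Finset.mem_range.mp hi; omega)).le
        linarith
      · intro i hi
        have : B i ≤ ∑ i ∈ Finset.range (r + 1), B i :=
          Finset.single_le_sum (f := B)
            (fun i hi => (hBpos i (by have := Finset.mem_range.mp hi; omega)).le)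
            (Finset.mem_range.mpr (by omega))
        linarith
    set y : ℤ := Q1 * (u0 + a2 * (|u0| + T)) with hy
    have hQ1pos' : (1 : ℤ) ≤ Q1 := by exact_mod_cast hQ1pos
    have hyT : T ≤ y := by
      have e1 : T ≤ u0 + a2 * (|u0| + T) := by
        have : -|u0| ≤ u0 := neg_abs_le u0
        have h3 : (1 : ℤ) ≤ a2 := by exact_mod_cast h2
        have h4 : 0 ≤ |u0| + T := by have := abs_nonneg u0; linarith [hT.1]
        nlinarith
      have e2 : 0 < u0 + a2 * (|u0| + T) := lt_of_lt_of_le hT.1 e1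
      nlinarith
    have hyB : ∀ i, i ≤ r → B i < y := fun i hi => lt_of_lt_of_le (hT.2 i hi) hyT
    have hyQ1 : (Q1 : ℤ) ∣ y := dvd_mul_right _ _
    have hy1 : (a2 : ℤ) ∣ y - 1 := by
      refine ⟨Q1 * (|u0| + T) - v0, ?_⟩
      have : y - 1 = Q1 * u0 + Q1 * a2 * (|u0| + T) - 1 := by rw [hy]; ring
      rw [this]
      linear_combination huv
    -- D i
    set M : ℤ := a1 * ∏ i ∈ Finset.range (r + 1), (y - B i) with hM
    have hMpos : 0 < M := by
      apply mul_pos ha1
      apply Finset.prod_pos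
      intro i hi
      have := hyB i (by have := Finset.mem_range.mp hi; omega)
      linarith
    have hDM : ∀ i, i ≤ r → a1 * (y - B i) ∣ M := by
      intro i hi
      apply mul_dvd_mul_left
      exact Finset.dvd_prod_of_mem (fun i => y - B i) (Finset.mem_range.mpr (by omega))
    have hDc : ∀ i, IsCoprime (a2 : ℤ) (y - B i) := by
      intro i
      -- y - B i ≡ 1 mod a2
      have h5 : (a2 : ℤ) ∣ (y - B i) - 1 := by
        have := dvd_sub hy1 (hBdvd i)
        have e : y - 1 - B i = (y - B i) - 1 := by ring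
        rwa [e] at this
      obtain ⟨w, hw⟩ := h5
      refine ⟨-w, 1, ?_⟩
      linear_combination hw
    have hMc : IsCoprime (a2 : ℤ) M := by
      rw [hM]
      apply IsCoprime.mul_right
      · exact (Nat.isCoprime_iff_coprime.mpr hc).symm
      · apply IsCoprime.prod_right
        intro i _
        exact hDc i
    -- gcd (M, Q) divides y
    have hgcd : (Int.gcd M Q : ℤ) ∣ y := by
      have hg1 : IsCoprime (Q2 : ℤ) (Int.gcd M Q : ℤ) := by
        have h6 : IsCoprime ((a2 : ℤ) ^ k) (Int.gcd M Q : ℤ) := by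
          apply IsCoprime.pow_left
          exact IsCoprime.of_isCoprime_of_dvd_right hMc (Int.gcd_dvd_left _ _)
        apply IsCoprime.of_isCoprime_of_dvd_left h6
        exact_mod_cast hQ2d
      have hg2 : (Int.gcd M Q : ℤ) ∣ Q1 * Q2 := by
        rw [← hQeq]; exact Int.gcd_dvd_right _ _
      have hg3 : (Int.gcd M Q : ℤ) ∣ Q1 := hg1.symm.dvd_of_dvd_mul_right hg2
      exact hg3.trans hyQ1
    obtain ⟨c0, hc0⟩ := hgcd
    have hbez := Int.gcd_eq_gcd_ab M Q
    -- y = M * (gcdA * c0) + Q * (gcdB * c0)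
    set u : ℤ := Int.gcdA M Q * c0 with hu
    set v : ℤ := Int.gcdB M Q * c0 with hv
    have hyuv : y = M * u + Q * v := by
      rw [hc0, hbez, hu, hv]; ring
    -- choose Z
    set t : ℤ := |v| + K * y with ht
    set L : ℤ := Q * (M * t - v) with hL
    set Z : ℤ := L + y with hZ
    have hypos : 0 < y := lt_of_lt_of_le hT.1 hyT
    have htpos : 0 ≤ t := by positivity
    have hLlarge : K * y ≤ L := by
      have e1 : K * y ≤ M * t - v := by
        have h7 : v ≤ |v| := le_abs_self v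
        have hM1 : (1 : ℤ) ≤ M := hMpos
        have h8 : t ≤ M * t := by
          calc t = 1 * t := (one_mul t).symm
            _ ≤ M * t := mul_le_mul_of_nonneg_right hM1 htpos
        linarith
      have e2 : 0 < K * y := mul_pos hK hypos
      have e3 : (1 : ℤ) ≤ Q := hQpos
      have e4 : 0 ≤ M * t - v := le_trans e2.le e1
      calc K * y ≤ 1 * (M * t - v) := by rw [one_mul]; exact e1
        _ ≤ Q * (M * t - v) := mul_le_mul_of_nonneg_right e3 e4
    have hLpos : 0 < L := lt_of_lt_of_le (mul_pos hK hypos) hLlarge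
    have hLQ : Q ∣ L := dvd_mul_right _ _
    have hZM : M ∣ Z := by
      refine ⟨Q * t + u, ?_⟩
      rw [hZ, hL]
      linear_combination hyuv
    have hZB : ∀ i, Z - (B i + L) = y - B i := by intro i; rw [hZ]; ring
    refine ⟨fun i => if i ≤ r then B i + L else Z, ?_, ?_⟩
    · intro i hi
      by_cases hir : i ≤ r
      · simp only [hir, if_true]
        linarith [hBpos i hir]
      · simp only [hir, if_false]
        linarith
    · intro i j hij hj
      have hir : i ≤ r := by omega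
      by_cases hjr : j ≤ r
      · simp only [hir, hjr, if_true]
        obtain ⟨h3, h4, h5⟩ := hB1 i j hij hjr
        have e0 : B j + L - (B i + L) = B j - B i := by ring
        rw [e0]
        have hd : (B j - B i) ∣ P := hPdvd i j hij hjr
        refine ⟨by linarith, ?_, ?_, ?_⟩
        · apply dvd_add h4
          apply dvd_trans _ hLQ
          rw [hQ, mul_assoc]
          exact mul_dvd_mul_left _ (dvd_mul_of_dvd_right hd _)
        · apply dvd_add h5
          apply dvd_trans _ hLQ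
          have : Q = a2 * (a1 * P) := by rw [hQ]; ring
          rw [this]
          exact mul_dvd_mul_left _ (dvd_mul_of_dvd_right hd _)
        · have h9 : B j - B i ≤ y := by
            have := hyB j hjr
            have := hBpos i hir
            linarith
          have h10 : K * (B j - B i) ≤ K * y := mul_le_mul_of_nonneg_left h9 hK.le
          linarith [hBpos i hir]
      · simp only [hir, hjr, if_true, if_false]
        rw [hZB]
        refine ⟨?_, ?_, ?_, ?_⟩
        · have := hyB i hir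
          have := hZB i
          linarith
        · exact (hDM i hir).trans hZM
        · -- a2 * (y - B i) ∣ B i + L
          have h11 : (y - B i) ∣ B i + L := by
            have h12 : (y - B i) ∣ Z :=
              (dvd_trans (dvd_mul_left _ _) (hDM i hir)).trans hZM
            have h13 : B i + L = Z - (y - B i) := by rw [hZ]; ring
            rw [h13]
            exact dvd_sub h12 (dvd_refl _)
          have h14 : (a2 : ℤ) ∣ B i + L := by
            apply dvd_add (hBdvd i)
            apply dvd_trans _ hLQ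
            refine ⟨a1 * P, ?_⟩
            rw [hQ]; ring
          exact (hDc i).mul_dvd h14 h11
        · have h15 : y - B i ≤ y := by linarith [hBpos i hir]
          have h16 : K * (y - B i) ≤ K * y := mul_le_mul_of_nonneg_left h15 hK.le
          linarith [hBpos i hir]

/-- If arbitrarily large cliques with all ratios in `R` or `R⁻¹` exist, `R` is a set of recurrence. -/
lemma recurrence_of_cliques (R : Set {q : ℚ // 0 < q})
    (h : ∀ r : ℕ, ∃ A : ℕ → {q : ℚ // 0 < q}, ∀ i j, i < j → j ≤ r →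
      A j / A i ∈ R ∨ A i / A j ∈ R) : IsSetOfRecurrence R := by
  intro X _ _ _ T hT hmin U hU hUne
  obtain ⟨x, hx⟩ := hUne
  have hcover : (Set.univ : Set X) ⊆ ⋃ g : {q : ℚ // 0 < q}, T g ⁻¹' U := by
    intro z _
    obtain ⟨w, ⟨g, hg⟩, hw⟩ := (hmin z).exists_mem_open hU ⟨x, hx⟩ |>.imp fun a ha => ha
    exact Set.mem_iUnion.mpr ⟨g, by simpa [hg] using hw⟩
  obtain ⟨F, hF⟩ := isCompact_univ.elim_finite_subcover (fun g => T g ⁻¹' U)
    (fun g => hU.preimage (hT.cont g)) hcover
  obtain ⟨A, hA⟩ := h F.card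
  have hcol : ∀ i : ℕ, ∃ g ∈ F, T g (T (A i) x) ∈ U := by
    intro i
    have := hF (Set.mem_univ (T (A i) x))
    simpa using this
  choose c hcF hcU using hcol
  -- pigeonhole
  have hmaps : ∀ i ∈ Finset.range (F.card + 1), c i ∈ F := fun i _ => hcF i
  obtain ⟨i, hi, j, hj, hne, hij⟩ := Finset.exists_ne_map_eq_of_card_lt_of_maps_to
    (by simp : F.card < (Finset.range (F.card + 1)).card) hmaps
  have key : ∀ i j, i < j → j ≤ F.card → c i = c j → ∃ r ∈ R, (U ∩ T r ⁻¹' U).Nonempty := by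
    intro i j hij hj hc
    have ui := hcU i
    have uj := hcU j
    rw [← hc] at uj
    rcases hA i j hij hj with hR | hR
    · refine ⟨_, hR, T (c i) (T (A i) x), ui, ?_⟩
      have e : T (A j / A i) (T (c i) (T (A i) x)) = T (c i) (T (A j) x) := by
        have e1 : T (A j / A i) (T (c i) (T (A i) x)) = T (A j / A i * (c i * A i)) x := by
          rw [hT.mul, hT.mul]; rfl
        have e2 : T (c i) (T (A j) x) = T (c i * A j) x := by rw [hT.mul]; rfl
        rw [e1, e2]
        congr 1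
        rw [div_mul_eq_mul_div, div_eq_iff_eq_mul]
        rw [mul_comm (A j), mul_assoc, mul_assoc, mul_comm (A i)]
      show T (A j / A i) (T (c i) (T (A i) x)) ∈ U
      rw [e]; exact uj
    · refine ⟨_, hR, T (c i) (T (A j) x), uj, ?_⟩
      have e : T (A i / A j) (T (c i) (T (A j) x)) = T (c i) (T (A i) x) := by
        have e1 : T (A i / A j) (T (c i) (T (A j) x)) = T (A i / A j * (c i * A j)) x := by
          rw [hT.mul, hT.mul]; rfl
        have e2 : T (c i) (T (A i) x) = T (c i * A i) x := by rw [hT.mul]; rfl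
        rw [e1, e2]
        congr 1
        rw [div_mul_eq_mul_div, div_eq_iff_eq_mul]
        rw [mul_comm (A i), mul_assoc, mul_assoc, mul_comm (A j)]
      show T (A i / A j) (T (c i) (T (A j) x)) ∈ U
      rw [e]; exact ui
  rcases lt_or_gt_of_ne hne with hlt | hlt
  · exact key i j hlt (by have := Finset.mem_range.mp hj; omega) hij
  · exact key j i hlt (by have := Finset.mem_range.mp hi; omega) hij.symm

/-- From the prime-power condition to a coprime factorisation. -/
lemma factor_split (b d : ℤ) : ∀ a : ℕ, 0 < a →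
    (∀ p e : ℕ, p.Prime → p ^ e ∣ a → ((p : ℤ) ^ e ∣ b ∨ (p : ℤ) ^ e ∣ d)) →
    ∃ a1 a2 : ℕ, 0 < a1 ∧ 0 < a2 ∧ a = a1 * a2 ∧ Nat.Coprime a1 a2 ∧ (a1 : ℤ) ∣ b ∧
      (a2 : ℤ) ∣ d := by
  intro a
  induction a using Nat.recOnPosPrimePosCoprime with
  | prime_pow p n hp hn =>
    intro _ h
    rcases h p n hp (dvd_refl _) with h1 | h1
    · exact ⟨p ^ n, 1, pow_pos hp.pos n, one_pos, by simp, by simp, by exact_mod_cast h1,
        by simp⟩
    · exact ⟨1, p ^ n, one_pos, pow_pos hp.pos n, by simp, by simp, by simp,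
        by exact_mod_cast h1⟩
  | zero => intro h; omega
  | one =>
    intro _ _
    exact ⟨1, 1, one_pos, one_pos, by simp, by simp, by simp, by simp⟩
  | coprime x y hx hy hxy ihx ihy =>
    intro _ h
    obtain ⟨a1, a2, p1, p2, e1, c1, d1, d1'⟩ := ihx (by omega)
      (fun p e hp hd => h p e hp (hd.mul_right y))
    obtain ⟨b1, b2, q1, q2, e2, c2, d2, d2'⟩ := ihy (by omega)
      (fun p e hp hd => h p e hp (hd.mul_left x))
    rw [e1, e2] at hxy
    have k1 : Nat.Coprime a1 b1 := Nat.Coprime.of_dvd (dvd_mul_right _ _) (dvd_mul_right _ _) hxy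
    have k2 : Nat.Coprime a1 b2 := Nat.Coprime.of_dvd (dvd_mul_right _ _) (dvd_mul_left _ _) hxy
    have k3 : Nat.Coprime a2 b1 := Nat.Coprime.of_dvd (dvd_mul_left _ _) (dvd_mul_right _ _) hxy
    have k4 : Nat.Coprime a2 b2 := Nat.Coprime.of_dvd (dvd_mul_left _ _) (dvd_mul_left _ _) hxy
    refine ⟨a1 * b1, a2 * b2, Nat.mul_pos p1 q1, Nat.mul_pos p2 q2, ?_, ?_, ?_, ?_⟩
    · rw [e1, e2]; ring
    · exact Nat.Coprime.mul_left (Nat.Coprime.mul_right c1 k2)
        (Nat.Coprime.mul_right k3.symm c2)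
    · push_cast
      exact (Nat.isCoprime_iff_coprime.mpr k1).mul_dvd d1 d2
    · push_cast
      exact (Nat.isCoprime_iff_coprime.mpr k4).mul_dvd d1' d2'

/-- Key arithmetic: cliques give ratios in `S`, in the case `d < b`. -/
lemma ratio_lemma (a1 a2 : ℕ) (h1 : 0 < a1) (h2 : 0 < a2) (hc : Nat.Coprime a1 a2) (b d : ℤ)
    (hb : (a1 : ℤ) ∣ b) (hd : (a2 : ℤ) ∣ d) (hlt : d < b) (r : ℕ) :
    ∃ A : ℕ → ℤ, (∀ i, i ≤ r → 0 < A i) ∧ ∀ i j, i < j → j ≤ r →
      ∃ n : ℕ, 1 ≤ n ∧ 0 < ((a1 * a2 : ℕ) : ℤ) * n + b ∧ 0 < ((a1 * a2 : ℕ) : ℤ) * n + d ∧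
        A j * (((a1 * a2 : ℕ) : ℤ) * n + d) = A i * (((a1 * a2 : ℕ) : ℤ) * n + b) := by
  obtain ⟨A, hApos, hA⟩ := clique_exists a1 a2 h1 h2 hc (|b| + 1)
    (by have := abs_nonneg b; linarith) r
  refine ⟨A, hApos, ?_⟩
  intro i j hij hj
  obtain ⟨hltA, ⟨s, hs⟩, ⟨t, ht⟩, hK⟩ := hA i j hij hj
  set D : ℤ := A j - A i with hD
  have hDpos : 0 < D := by linarith
  have ha1 : (0 : ℤ) < a1 := by exact_mod_cast h1
  have ha2 : (0 : ℤ) < a2 := by exact_mod_cast h2
  -- a1 * s = a2 * t + 1
  have hst : (a1 : ℤ) * s = a2 * t + 1 := by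
    have : D * (a1 * s) = D * (a2 * t + 1) := by
      have e : A j = A i + D := by rw [hD]; ring
      rw [hs, ht] at e
      linear_combination e
    exact mul_left_cancel₀ hDpos.ne' this
  have htK : |b| + 1 ≤ a2 * t := by
    have : (|b| + 1) * D ≤ (a2 * t) * D := by
      calc (|b| + 1) * D ≤ A i := hK
        _ = (a2 * t) * D := by rw [ht]; ring
    exact le_of_mul_le_mul_right this hDpos
  set δ : ℤ := b - d with hδ
  have hδpos : 1 ≤ δ := by rw [hδ]; linarith
  have hNb : ((a1 * a2 : ℕ) : ℤ) ∣ δ * (a1 * s) - b := by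
    push_cast
    apply (Nat.isCoprime_iff_coprime.mpr hc).mul_dvd
    · exact dvd_sub (dvd_mul_of_dvd_right (dvd_mul_right _ _) _) hb
    · have : δ * (a1 * s) - b = δ * (a2 * t) - d := by rw [hst, hδ]; ring
      rw [this]
      exact dvd_sub (dvd_mul_of_dvd_right (dvd_mul_right _ _) _) hd
  obtain ⟨m, hm⟩ := hNb
  have hbabs : b ≤ |b| := le_abs_self b
  have habs0 : 0 ≤ |b| := abs_nonneg b
  have hbig : |b| + 1 ≤ δ * (a2 * t) := by
    have h0 : 0 ≤ (a2 : ℤ) * t := by linarith
    calc |b| + 1 ≤ 1 * (a2 * t) := by rw [one_mul]; exact htK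
      _ ≤ δ * (a2 * t) := mul_le_mul_of_nonneg_right hδpos h0
  have hpos1 : 0 < δ * (a1 * s) - b := by
    rw [hst]
    have : δ * (a2 * t + 1) = δ * (a2 * t) + δ := by ring
    rw [this]
    linarith
  have ha12 : (0 : ℤ) < ((a1 * a2 : ℕ) : ℤ) := by exact_mod_cast Nat.mul_pos h1 h2
  have hmpos : 0 < m := by
    rw [hm] at hpos1
    exact (mul_pos_iff_of_pos_left ha12).mp hpos1
  refine ⟨m.toNat, ?_, ?_, ?_, ?_⟩
  · omega
  · have e : ((m.toNat : ℕ) : ℤ) = m := Int.toNat_of_nonneg hmpos.le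
    rw [e, ← hm]
    have : δ * (a1 * s) - b + b = δ * (a2 * t) + δ := by rw [hst]; ring
    rw [this]; linarith
  · have e : ((m.toNat : ℕ) : ℤ) = m := Int.toNat_of_nonneg hmpos.le
    rw [e, ← hm]
    have : δ * (a1 * s) - b + d = δ * (a2 * t) := by rw [hst, hδ]; ring
    rw [this]; linarith
  · have e : ((m.toNat : ℕ) : ℤ) = m := Int.toNat_of_nonneg hmpos.le
    rw [e, ← hm]
    have e1 : δ * (a1 * s) - b + d = δ * (a2 * t) := by rw [hst, hδ]; ring
    have e2 : δ * (a1 * s) - b + b = δ * (a1 * s) := by ring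
    rw [e1, e2, hs, ht]; ring

/-- Positive direction. -/
lemma recurrence_pos (a : ℕ) (b d : ℤ) (ha : 0 < a) (hbd : b ≠ d)
    (h : ∀ p e : ℕ, p.Prime → p ^ e ∣ a → ((p : ℤ) ^ e ∣ b ∨ (p : ℤ) ^ e ∣ d)) :
    IsSetOfRecurrence (S a b d) := by
  apply recurrence_of_cliques
  intro r
  rcases lt_or_gt_of_ne hbd with hlt | hlt
  · -- b < d
    obtain ⟨a1, a2, h1, h2, rfl, hc, hb, hd⟩ := factor_split d b a ha
      (fun p e hp hd => (h p e hp hd).symm)
    obtain ⟨A, hApos, hA⟩ := ratio_lemma a1 a2 h1 h2 hc d b hb hd hlt r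
    refine ⟨fun i => if hi : i ≤ r then ⟨(A i : ℚ), by exact_mod_cast hApos i hi⟩ else 1, ?_⟩
    intro i j hij hj
    obtain ⟨n, hn, hp1, hp2, heq⟩ := hA i j hij hj
    right
    have hi : i ≤ r := by omega
    simp only [hi, hj, dif_pos]
    refine ⟨n, hn, hp2, hp1, ?_⟩
    have hAi : (0 : ℚ) < A i := by exact_mod_cast hApos i hi
    have hAj : (0 : ℚ) < A j := by exact_mod_cast hApos j hj
    have e : (A j : ℚ) * (((a1 * a2 : ℕ) : ℚ) * n + b) = A i * (((a1 * a2 : ℕ) : ℚ) * n + d) := by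
      exact_mod_cast heq
    have hp1' : (0 : ℚ) < ((a1 * a2 : ℕ) : ℚ) * n + d := by exact_mod_cast hp1
    show ((A i : ℚ) / (A j : ℚ)) = _
    rw [div_eq_div_iff hAj.ne' hp1'.ne']
    linear_combination -e
  · obtain ⟨a1, a2, h1, h2, rfl, hc, hb, hd⟩ := factor_split b d a ha h
    obtain ⟨A, hApos, hA⟩ := ratio_lemma a1 a2 h1 h2 hc b d hb hd hlt r
    refine ⟨fun i => if hi : i ≤ r then ⟨(A i : ℚ), by exact_mod_cast hApos i hi⟩ else 1, ?_⟩
    intro i j hij hj
    obtain ⟨n, hn, hp1, hp2, heq⟩ := hA i j hij hj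
    left
    have hi : i ≤ r := by omega
    simp only [hi, hj, dif_pos]
    refine ⟨n, hn, hp1, hp2, ?_⟩
    have hAi : (0 : ℚ) < A i := by exact_mod_cast hApos i hi
    have hAj : (0 : ℚ) < A j := by exact_mod_cast hApos j hj
    have e : (A j : ℚ) * (((a1 * a2 : ℕ) : ℚ) * n + d) = A i * (((a1 * a2 : ℕ) : ℚ) * n + b) := by
      exact_mod_cast heq
    have hp2' : (0 : ℚ) < ((a1 * a2 : ℕ) : ℚ) * n + d := by exact_mod_cast hp2
    show ((A j : ℚ) / (A i : ℚ)) = _
    rw [div_eq_div_iff hAi.ne' hp2'.ne']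
    linear_combination e

/-- A homomorphism to a finite group missing the identity on `R` rules out recurrence. -/
lemma not_recurrence_of_hom (R : Set {q : ℚ // 0 < q}) (H : Type) [CommGroup H] [Finite H]
    (φ : {q : ℚ // 0 < q} →* H) (hφ : ∀ r ∈ R, φ r ≠ 1) : ¬ IsSetOfRecurrence R := by
  intro hrec
  let X := φ.range
  let _ : TopologicalSpace X := ⊥
  have _ : DiscreteTopology X := ⟨rfl⟩
  have _ : Finite X := inferInstance
  let T : {q : ℚ // 0 < q} → X → X := fun r x => ⟨φ r, ⟨r, rfl⟩⟩ * x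
  have hT : IsSystem T := by
    refine ⟨fun r => continuous_of_discreteTopology, ?_⟩
    intro r s
    funext x
    apply Subtype.ext
    simp [T, mul_assoc]
  have hmin : IsMinimalSystem T := by
    intro x
    have : (Set.range fun r => T r x) = Set.univ := by
      rw [Set.eq_univ_iff_forall]
      intro y
      obtain ⟨s, hs⟩ := (y * x⁻¹).2
      refine ⟨s, ?_⟩
      have e : (⟨φ s, ⟨s, rfl⟩⟩ : X) = y * x⁻¹ := Subtype.ext hs
      show (⟨φ s, ⟨s, rfl⟩⟩ : X) * x = y
      rw [e]; group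
    rw [this]
    exact dense_univ
  obtain ⟨r, hr, x, hx1, hx2⟩ := hrec X T hT hmin {1} (isOpen_discrete _) ⟨1, rfl⟩
  have h1 : x = 1 := hx1
  have h2 : T r x = 1 := hx2
  rw [h1] at h2
  have h3 : (⟨φ r, ⟨r, rfl⟩⟩ : X) * 1 = 1 := h2
  rw [mul_one] at h3
  exact hφ r hr (congrArg Subtype.val h3)

/-- Extension of a completely multiplicative function on positive naturals to `ℚ^{>0}`. -/
lemma extend_hom (H : Type) [CommGroup H] (f : ℕ → H)
    (hf : ∀ x y, 0 < x → 0 < y → f (x * y) = f x * f y) :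
    ∃ φ : {q : ℚ // 0 < q} →* H, ∀ (q : {q : ℚ // 0 < q}) (x y : ℕ), 0 < x → 0 < y →
      (q : ℚ) = (x : ℚ) / y → φ q = f x / f y := by
  -- well-definedness
  have key : ∀ x y z w : ℕ, 0 < x → 0 < y → 0 < z → 0 < w → (x : ℚ) / y = (z : ℚ) / w →
      f x / f y = f z / f w := by
    intro x y z w hx hy hz hw h
    have hy' : (y : ℚ) ≠ 0 := by exact_mod_cast hy.ne'
    have hw' : (w : ℚ) ≠ 0 := by exact_mod_cast hw.ne'
    rw [div_eq_div_iff hy' hw'] at h
    have h' : x * w = z * y := by exact_mod_cast h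
    rw [div_eq_div_iff_mul_eq_mul, ← hf x w hx hw, ← hf z y hz hy, h']
  have hnum : ∀ q : {q : ℚ // 0 < q}, 0 < (q : ℚ).num.natAbs := by
    intro q
    have : 0 < (q : ℚ).num := Rat.num_pos.mpr q.2
    omega
  have hden : ∀ q : {q : ℚ // 0 < q}, 0 < (q : ℚ).den := fun q => (q : ℚ).den_pos
  have hrep : ∀ q : {q : ℚ // 0 < q}, (q : ℚ) = ((q : ℚ).num.natAbs : ℚ) / ((q : ℚ).den : ℚ) := by
    intro q
    have h0 : 0 < (q : ℚ).num := Rat.num_pos.mpr q.2
    have h1 : (((q : ℚ).num.natAbs : ℕ) : ℤ) = (q : ℚ).num := Int.natAbs_of_nonneg h0.le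
    have h2 : (((q : ℚ).num.natAbs : ℕ) : ℚ) = ((q : ℚ).num : ℚ) := by
      rw [← Int.cast_natCast, h1]
    rw [h2]
    exact (Rat.num_div_den _).symm
  have hval : ∀ (q : {q : ℚ // 0 < q}) (x y : ℕ), 0 < x → 0 < y → (q : ℚ) = (x : ℚ) / y →
      f (q : ℚ).num.natAbs / f (q : ℚ).den = f x / f y := by
    intro q x y hx hy hq
    exact key _ _ _ _ (hnum q) (hden q) hx hy ((hrep q).symm.trans hq)
  refine ⟨MonoidHom.mk' (fun q => f (q : ℚ).num.natAbs / f (q : ℚ).den) ?_, hval⟩
  intro q s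
  have h1 : ((q * s : {q : ℚ // 0 < q}) : ℚ) =
      (((q : ℚ).num.natAbs * (s : ℚ).num.natAbs : ℕ) : ℚ) /
        (((q : ℚ).den * (s : ℚ).den : ℕ) : ℚ) := by
    show (q : ℚ) * (s : ℚ) = _
    conv_lhs => rw [hrep q, hrep s]
    push_cast
    rw [div_mul_div_comm]
  rw [hval (q * s) _ _ (Nat.mul_pos (hnum q) (hnum s)) (Nat.mul_pos (hden q) (hden s)) h1]
  rw [hf _ _ (hnum q) (hnum s), hf _ _ (hden q) (hden s), div_mul_div_comm]

/-- the residue class of the `p`-free part of a natural number -/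
noncomputable def unitPart (p k : ℕ) (hp : p.Prime) (n : ℕ) : (ZMod (p ^ k))ˣ :=
  if h : n = 0 then 1 else
    ZMod.unitOfCoprime (n / p ^ n.factorization p)
      (Nat.Coprime.pow_right k (Nat.coprime_ordCompl hp h).symm)

lemma unitPart_mul (p k : ℕ) (hp : p.Prime) (x y : ℕ) (hx : 0 < x) (hy : 0 < y) :
    unitPart p k hp (x * y) = unitPart p k hp x * unitPart p k hp y := by
  have hxy : x * y ≠ 0 := (Nat.mul_pos hx hy).ne'
  unfold unitPart
  rw [dif_neg hx.ne', dif_neg hy.ne', dif_neg hxy]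
  apply Units.ext
  simp only [ZMod.coe_unitOfCoprime, Units.val_mul]
  rw [Nat.ordCompl_mul]
  push_cast
  rfl

/-- Negative direction. -/
lemma not_recurrence (a : ℕ) (b d : ℤ) (hbd : b ≠ d) (p e : ℕ) (hp : p.Prime)
    (hpa : p ^ e ∣ a) (hb : ¬ ((p : ℤ) ^ e ∣ b)) (hd : ¬ ((p : ℤ) ^ e ∣ d)) :
    ¬ IsSetOfRecurrence (S a b d) := by
  have : Fact p.Prime := ⟨hp⟩
  -- general fact: valuation of `a n + c`
  have val : ∀ (c : ℤ), ¬ ((p : ℤ) ^ e ∣ c) → ∃ v : ℕ, ∀ n : ℕ, 0 < (a : ℤ) * n + c →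
      (((a : ℤ) * n + c).toNat).factorization p = v := by
    intro c hc
    have hc0 : c ≠ 0 := by
      rintro rfl
      exact hc (dvd_zero _)
    have hcn : c.natAbs ≠ 0 := Int.natAbs_ne_zero.mpr hc0
    refine ⟨c.natAbs.factorization p, ?_⟩
    intro n hpos
    set v := c.natAbs.factorization p with hv
    have hvc : (p : ℤ) ^ v ∣ c := by
      have : p ^ v ∣ c.natAbs := Nat.ordProj_dvd _ _
      exact Int.natCast_dvd.mpr (by simpa using this) |> (by simpa using ·)
    have hvc' : ¬ (p : ℤ) ^ (v + 1) ∣ c := by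
      intro hdiv
      have h1 : p ^ (v + 1) ∣ c.natAbs := by
        have := Int.natAbs_dvd_natAbs.mpr hdiv
        simpa [Int.natAbs_pow] using this
      exact Nat.pow_succ_factorization_not_dvd hcn hp h1
    have hve : v < e := by
      by_contra hge
      push Not at hge
      exact hc ((pow_dvd_pow _ hge).trans hvc)
    have hpa' : (p : ℤ) ^ (v + 1) ∣ (a : ℤ) := by
      have : (p : ℤ) ^ e ∣ (a : ℤ) := by exact_mod_cast hpa
      exact (pow_dvd_pow _ (by omega)).trans this
    set m := ((a : ℤ) * n + c).toNat with hm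
    have hmz : (m : ℤ) = (a : ℤ) * n + c := Int.toNat_of_nonneg hpos.le
    have hm0 : m ≠ 0 := by
      intro h0
      rw [h0] at hmz
      simp at hmz
      omega
    have hd1 : p ^ v ∣ m := by
      have : (p : ℤ) ^ v ∣ (m : ℤ) := by
        rw [hmz]
        exact dvd_add (dvd_mul_of_dvd_left ((pow_dvd_pow _ (by omega)).trans hpa') _) hvc
      exact_mod_cast this
    have hd2 : ¬ p ^ (v + 1) ∣ m := by
      intro hdiv
      have h1 : (p : ℤ) ^ (v + 1) ∣ (m : ℤ) := by exact_mod_cast hdiv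
      rw [hmz] at h1
      exact hvc' ((dvd_add_right (dvd_mul_of_dvd_left hpa' _)).mp h1)
    apply le_antisymm
    · by_contra hlt
      push Not at hlt
      exact hd2 ((hp.pow_dvd_iff_le_factorization hm0).mpr hlt)
    · exact (hp.pow_dvd_iff_le_factorization hm0).mp hd1
  obtain ⟨vb, hvb⟩ := val b hb
  obtain ⟨vd, hvd⟩ := val d hd
  by_cases hv : vb = vd
  · -- unit part obstruction
    subst hv
    -- choose k
    set k := (b - d).natAbs with hk
    have hk0 : (b - d).natAbs ≠ 0 := Int.natAbs_ne_zero.mpr (sub_ne_zero.mpr hbd)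
    have : NeZero (p ^ k) := ⟨(pow_pos hp.pos k).ne'⟩
    obtain ⟨φ, hφ⟩ := extend_hom (ZMod (p ^ k))ˣ (unitPart p k hp)
      (fun x y hx hy => unitPart_mul p k hp x y hx hy)
    apply not_recurrence_of_hom _ _ φ
    rintro q ⟨n, hn, hp1, hp2, hq⟩
    set x := ((a : ℤ) * n + b).toNat with hx
    set y := ((a : ℤ) * n + d).toNat with hy
    have hxz : (x : ℤ) = (a : ℤ) * n + b := Int.toNat_of_nonneg hp1.le
    have hyz : (y : ℤ) = (a : ℤ) * n + d := Int.toNat_of_nonneg hp2.le
    have hxpos : 0 < x := by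
      have : (0 : ℤ) < x := by rw [hxz]; exact hp1
      exact_mod_cast this
    have hypos : 0 < y := by
      have : (0 : ℤ) < y := by rw [hyz]; exact hp2
      exact_mod_cast this
    have hxq : (x : ℚ) = (a : ℚ) * n + b := by exact_mod_cast hxz
    have hyq : (y : ℚ) = (a : ℚ) * n + d := by exact_mod_cast hyz
    rw [hφ q x y hxpos hypos (by rw [hq, hxq, hyq])]
    intro h1
    rw [div_eq_one] at h1
    have fx : x.factorization p = vb := hvb n hp1
    have fy : y.factorization p = vb := hvd n hp2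
    unfold unitPart at h1
    rw [dif_neg hxpos.ne', dif_neg hypos.ne'] at h1
    have h2 := congrArg Units.val h1
    simp only [ZMod.coe_unitOfCoprime] at h2
    rw [fx, fy] at h2
    rw [ZMod.natCast_eq_natCast_iff] at h2
    have h3 := (Nat.modEq_iff_dvd.mp h2)
    -- multiply by p ^ vb
    have ex : x = p ^ vb * (x / p ^ vb) := by
      have : p ^ x.factorization p * (x / p ^ x.factorization p) = x := Nat.ordProj_mul_ordCompl_eq_self x p
      rw [fx] at this; exact this.symm
    have ey : y = p ^ vb * (y / p ^ vb) := by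
      have : p ^ y.factorization p * (y / p ^ y.factorization p) = y := Nat.ordProj_mul_ordCompl_eq_self y p
      rw [fy] at this; exact this.symm
    have h4 : ((p ^ k : ℕ) : ℤ) ∣ (y : ℤ) - (x : ℤ) := by
      have : (y : ℤ) - (x : ℤ) = (p : ℤ) ^ vb * (((y / p ^ vb : ℕ) : ℤ) - ((x / p ^ vb : ℕ) : ℤ)) := by
        rw [mul_sub]
        congr 1
        · exact_mod_cast ey
        · exact_mod_cast ex
      rw [this]
      exact dvd_mul_of_dvd_right h3 _
    have h5 : ((p ^ k : ℕ) : ℤ) ∣ b - d := by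
      have e1 : b - d = -((y : ℤ) - (x : ℤ)) := by rw [hxz, hyz]; ring
      rw [e1]; exact (dvd_neg.mpr h4)
    have h6 : p ^ k ∣ (b - d).natAbs := by
      have := Int.natAbs_dvd_natAbs.mpr h5
      simpa using this
    have h7 : p ^ k ≤ (b - d).natAbs := Nat.le_of_dvd (Nat.pos_of_ne_zero hk0) h6
    have h8 : k < p ^ k := Nat.lt_pow_self hp.one_lt
    omega
  · -- valuation obstruction
    set m := vb + vd + 1 with hm
    have : NeZero m := ⟨by omega⟩
    obtain ⟨φ, hφ⟩ := extend_hom (Multiplicative (ZMod m))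
      (fun n => Multiplicative.ofAdd ((n.factorization p : ℕ) : ZMod m)) (by
        intro x y hx hy
        rw [Nat.factorization_mul hx.ne' hy.ne']
        simp [ofAdd_add])
    apply not_recurrence_of_hom _ _ φ
    rintro q ⟨n, hn, hp1, hp2, hq⟩
    set x := ((a : ℤ) * n + b).toNat with hx
    set y := ((a : ℤ) * n + d).toNat with hy
    have hxz : (x : ℤ) = (a : ℤ) * n + b := Int.toNat_of_nonneg hp1.le
    have hyz : (y : ℤ) = (a : ℤ) * n + d := Int.toNat_of_nonneg hp2.le
    have hxpos : 0 < x := by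
      have : (0 : ℤ) < x := by rw [hxz]; exact hp1
      exact_mod_cast this
    have hypos : 0 < y := by
      have : (0 : ℤ) < y := by rw [hyz]; exact hp2
      exact_mod_cast this
    have hxq : (x : ℚ) = (a : ℚ) * n + b := by exact_mod_cast hxz
    have hyq : (y : ℚ) = (a : ℚ) * n + d := by exact_mod_cast hyz
    rw [hφ q x y hxpos hypos (by rw [hq, hxq, hyq])]
    intro h1
    rw [div_eq_one] at h1
    have fx : x.factorization p = vb := hvb n hp1
    have fy : y.factorization p = vd := hvd n hp2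
    rw [fx, fy] at h1
    have h2 : ((vb : ℕ) : ZMod m) = ((vd : ℕ) : ZMod m) := Multiplicative.ofAdd.injective h1
    rw [ZMod.natCast_eq_natCast_iff] at h2
    have h3 : vb = vd := Nat.ModEq.eq_of_lt_of_lt h2 (by omega) (by omega)
    exact hv h3

/-- Full classification, and the resulting negative answer to Q1. -/
theorem result :
    (∀ (a : ℕ) (b d : ℤ), 0 < a → b ≠ d →
      (IsSetOfRecurrence (S a b d) ↔
        ∀ p e : ℕ, p.Prime → p ^ e ∣ a → ((p : ℤ) ^ e ∣ b ∨ (p : ℤ) ^ e ∣ d))) ∧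
    ¬ (∀ (a : ℕ) (b d : ℤ), 0 < a → b ≠ d →
      (IsSetOfRecurrence (S a b d) ↔ ((a : ℤ) ∣ b ∨ (a : ℤ) ∣ d))) := by
  have main : ∀ (a : ℕ) (b d : ℤ), 0 < a → b ≠ d →
      (IsSetOfRecurrence (S a b d) ↔
        ∀ p e : ℕ, p.Prime → p ^ e ∣ a → ((p : ℤ) ^ e ∣ b ∨ (p : ℤ) ^ e ∣ d)) := by
    intro a b d ha hbd
    constructor
    · intro hrec p e hp hpe
      by_contra hcon
      push Not at hcon
      exact not_recurrence a b d hbd p e hp hpe hcon.1 hcon.2 hrec
    · exact recurrence_pos a b d ha hbd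
  refine ⟨main, ?_⟩
  intro hall
  have h1 : IsSetOfRecurrence (S 6 3 2) := by
    rw [main 6 3 2 (by norm_num) (by norm_num)]
    intro p e hp hpe
    have hle : p ^ e ≤ 6 := Nat.le_of_dvd (by norm_num) hpe
    rcases Nat.eq_zero_or_pos e with he | he
    · left; simp [he]
    have hpd : p ∣ 6 := (dvd_pow_self p he.ne').trans hpe
    have hp6 : p = 2 ∨ p = 3 := by
      have : p ∣ 2 * 3 := hpd
      rcases (Nat.Prime.dvd_mul hp).mp this with h | h
      · left; exact (Nat.prime_dvd_prime_iff_eq hp Nat.prime_two).mp h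
      · right; exact (Nat.prime_dvd_prime_iff_eq hp Nat.prime_three).mp h
    have he1 : e = 1 := by
      by_contra hne
      have he2 : 2 ≤ e := by omega
      have h4 : p ^ 2 ∣ 6 := (pow_dvd_pow p he2).trans hpe
      rcases hp6 with rfl | rfl <;> revert h4 <;> decide
    subst he1
    rcases hp6 with rfl | rfl
    · right; norm_num
    · left; norm_num
  have h2 := (hall 6 3 2 (by norm_num) (by norm_num)).mp h1
  rcases h2 with h | h <;> revert h <;> decide

end Pool.Agent.Results.MP_369d67_an.Classification
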